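import Mathlib

/-! Slit functions and truncated logarithmic poles in the unit disc. -/

set_option autoImplicit false
open MeasureTheory

namespace Pool.Agent.H44.CM

section helpers
open InnerProductSpace Topology

/-- `(|S+1| - |S-1|)/2`. -/
noncomputable def hh (S : ℂ) : ℝ := (‖S + 1‖ - ‖S - 1‖) / 2

/-- The holomorphic function `sqrt(1 - S^2) + i S = exp (i arcsin S)`. -/
noncomputable def EE (S : ℂ) : ℂ := Complex.exp (Complex.log (1 - S ^ 2) / 2) + Complex.I * S

lemma EE_facts {S : ℂ} (hS : 1 - S ^ 2 ∈ Complex.slitPlane) :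
    0 < (EE S).re ∧ Real.arcsin (hh S) = (Complex.log (EE S)).im := by
  set q := Complex.exp (Complex.log (1 - S ^ 2) / 2) with hq
  have h0 : (1 - S ^ 2) ≠ 0 := Complex.slitPlane_ne_zero hS
  have hqq : q ^ 2 = 1 - S ^ 2 := by
    rw [hq, ← Complex.exp_nat_mul]
    rw [show ((2 : ℕ) : ℂ) * (Complex.log (1 - S ^ 2) / 2) = Complex.log (1 - S ^ 2) by
      push_cast; ring]
    exact Complex.exp_log h0
  have hqre : 0 < q.re := by
    rw [hq, Complex.exp_re]
    apply mul_pos (Real.exp_pos _)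
    have him : (Complex.log (1 - S ^ 2) / 2).im = Complex.arg (1 - S ^ 2) / 2 := by
      rw [show (2 : ℂ) = ((2 : ℝ) : ℂ) by norm_num, Complex.div_ofReal_im, Complex.log_im]
    rw [him]
    have h1 := Complex.neg_pi_lt_arg (1 - S ^ 2)
    have h2 := Complex.arg_le_pi (1 - S ^ 2)
    have h3 : Complex.arg (1 - S ^ 2) ≠ Real.pi := Complex.slitPlane_arg_ne_pi hS
    have h4 : Complex.arg (1 - S ^ 2) < Real.pi := lt_of_le_of_ne h2 h3
    apply Real.cos_pos_of_mem_Ioo
    constructor <;> linarith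
  have hE : EE S = q + Complex.I * S := rfl
  set e := EE S with he
  have hprod : e * (q - Complex.I * S) = 1 := by
    rw [hE]
    have : (q + Complex.I * S) * (q - Complex.I * S) = q ^ 2 - Complex.I ^ 2 * S ^ 2 := by ring
    rw [this, hqq, Complex.I_sq]; ring
  have hene : e ≠ 0 := left_ne_zero_of_mul_eq_one hprod
  have hinv : e⁻¹ = q - Complex.I * S := by
    exact inv_eq_of_mul_eq_one_right hprod
  have hnpos : 0 < ‖e‖ := norm_pos_iff.mpr hene
  have hre : 0 < e.re := by
    have h1 : e + e⁻¹ = 2 * q := by rw [hinv, hE]; ring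
    have h2 : e.re + e.re / Complex.normSq e = 2 * q.re := by
      have := congrArg Complex.re h1
      rw [Complex.add_re, Complex.inv_re] at this
      rw [this]; simp
    have h3 : 0 < Complex.normSq e := Complex.normSq_pos.mpr hene
    by_contra hcon
    push Not at hcon
    have h4 : e.re / Complex.normSq e ≤ 0 := div_nonpos_of_nonpos_of_nonneg hcon h3.le
    linarith
  refine ⟨hre, ?_⟩
  have hI : (Complex.I : ℂ) ≠ 0 := Complex.I_ne_zero
  have hSe : 2 * Complex.I * S * e = e ^ 2 - 1 := by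
    have : e - e⁻¹ = 2 * Complex.I * S := by rw [hinv, hE]; ring
    rw [← this]
    field_simp
  have hp : (S + 1) * (2 * Complex.I * e) = (e + Complex.I) ^ 2 := by
    have : (S + 1) * (2 * Complex.I * e) = 2 * Complex.I * S * e + 2 * Complex.I * e := by ring
    rw [this, hSe]
    have h5 : (e + Complex.I) ^ 2 = e ^ 2 + 2 * Complex.I * e + Complex.I ^ 2 := by ring
    rw [h5, Complex.I_sq]; ring
  have hm : (S - 1) * (2 * Complex.I * e) = (e - Complex.I) ^ 2 := by
    have : (S - 1) * (2 * Complex.I * e) = 2 * Complex.I * S * e - 2 * Complex.I * e := by ring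
    rw [this, hSe]
    have h5 : (e - Complex.I) ^ 2 = e ^ 2 - 2 * Complex.I * e + Complex.I ^ 2 := by ring
    rw [h5, Complex.I_sq]; ring
  have hpn : ‖S + 1‖ * (2 * ‖e‖) = ‖e + Complex.I‖ ^ 2 := by
    have := congrArg norm hp
    rw [norm_mul, norm_mul, norm_mul, Complex.norm_I, norm_pow] at this
    simpa using this
  have hmn : ‖S - 1‖ * (2 * ‖e‖) = ‖e - Complex.I‖ ^ 2 := by
    have := congrArg norm hm
    rw [norm_mul, norm_mul, norm_mul, Complex.norm_I, norm_pow] at this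
    simpa using this
  have hpn2 : ‖e + Complex.I‖ ^ 2 = e.re ^ 2 + (e.im + 1) ^ 2 := by
    rw [Complex.sq_norm, Complex.normSq_apply]; simp; ring
  have hmn2 : ‖e - Complex.I‖ ^ 2 = e.re ^ 2 + (e.im - 1) ^ 2 := by
    rw [Complex.sq_norm, Complex.normSq_apply]; simp; ring
  have hh_eq : hh S = e.im / ‖e‖ := by
    rw [hh, eq_div_iff hnpos.ne']
    nlinarith [hpn, hmn, hpn2, hmn2]
  rw [hh_eq, Complex.log_im, Complex.arg_of_re_nonneg hre.le]

lemma mem_slit_of_norm {S : ℂ} (h1 : 0 < S.re) (h2 : ¬ (S.im = 0 ∧ 1 ≤ S.re)) :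
    1 - S ^ 2 ∈ Complex.slitPlane := by
  rw [Complex.mem_slitPlane_iff]
  by_contra hcon
  push Not at hcon
  obtain ⟨ha, hb⟩ := hcon
  have hre : (1 - S ^ 2).re = 1 - (S.re ^ 2 - S.im ^ 2) := by
    simp [pow_two, Complex.mul_re]
  have him : (1 - S ^ 2).im = - (2 * S.re * S.im) := by
    simp [pow_two, Complex.mul_im]; ring
  rw [hre] at ha
  rw [him] at hb
  apply h2
  have h3 : S.im = 0 := by
    have : S.re * S.im = 0 := by linarith
    rcases mul_eq_zero.mp this with h | h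
    · exact absurd h h1.ne'
    · exact h
  refine ⟨h3, ?_⟩
  rw [h3] at ha
  nlinarith

lemma harmonic_arcsin_hh {g : ℂ → ℂ} {z : ℂ} (hg : AnalyticAt ℂ g z)
    (hS : 1 - (g z) ^ 2 ∈ Complex.slitPlane) :
    HarmonicAt (fun w => Real.arcsin (hh (g w))) z := by
  have hopen : ∀ᶠ w in 𝓝 z, 1 - (g w) ^ 2 ∈ Complex.slitPlane := by
    have hc : ContinuousAt (fun w => 1 - (g w) ^ 2) z := by
      have := hg.continuousAt
      fun_prop
    exact hc.eventually (Complex.isOpen_slitPlane.mem_nhds hS)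
  have heq : (fun w => Real.arcsin (hh (g w))) =ᶠ[𝓝 z]
      (fun w => (Complex.log (EE (g w))).im) := by
    filter_upwards [hopen] with w hw
    exact (EE_facts hw).2
  rw [harmonicAt_congr_nhds heq]
  apply AnalyticAt.harmonicAt_im
  have h1 : AnalyticAt ℂ (fun w => EE (g w)) z := by
    unfold EE
    apply AnalyticAt.add
    · apply AnalyticAt.cexp
      apply AnalyticAt.div
      · apply AnalyticAt.clog
        · exact analyticAt_const.sub (hg.pow 2)
        · exact hS
      · exact analyticAt_const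
      · norm_num
    · exact analyticAt_const.mul hg
  apply AnalyticAt.clog h1
  rw [Complex.mem_slitPlane_iff]
  left
  exact (EE_facts hS).1

/-- Moebius map of the disc onto the right half-plane. -/
noncomputable def MM (z : ℂ) : ℂ := (1 + z) / (1 - z)

/-- Harmonic measure of the slit `[(1-b)/(1+b), 1)` in the unit disc minus the slit. -/
noncomputable def sl (b : ℝ) (z : ℂ) : ℝ := (2 / Real.pi) * Real.arcsin (hh (b * MM z))

lemma one_sub_ne {z : ℂ} (hz : ‖z‖ < 1) : 1 - z ≠ 0 := by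
  intro h
  have : z = 1 := by linear_combination -h
  rw [this] at hz
  simp at hz

lemma MM_re (z : ℂ) : (MM z).re = (1 - ‖z‖ ^ 2) / ‖1 - z‖ ^ 2 := by
  rw [MM, Complex.div_re, Complex.sq_norm, Complex.sq_norm]
  simp only [Complex.normSq_apply, Complex.add_re, Complex.sub_re, Complex.one_re,
    Complex.add_im, Complex.sub_im, Complex.one_im]
  rw [← add_div]
  congr 1
  ring

lemma MM_re_pos {z : ℂ} (hz : ‖z‖ < 1) : 0 < (MM z).re := by
  rw [MM_re]
  have h1 : 0 < ‖1 - z‖ := norm_pos_iff.mpr (one_sub_ne hz)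
  have h2 : ‖z‖ ^ 2 < 1 := by nlinarith [norm_nonneg z]
  apply div_pos <;> [linarith; positivity]

lemma hh_nonneg {S : ℂ} (h : 0 ≤ S.re) : 0 ≤ hh S := by
  have : ‖S - 1‖ ≤ ‖S + 1‖ := by
    rw [← abs_of_nonneg (norm_nonneg (S - 1)), ← abs_of_nonneg (norm_nonneg (S + 1)),
      ← sq_le_sq, Complex.sq_norm, Complex.sq_norm, Complex.normSq_apply, Complex.normSq_apply]
    simp only [Complex.add_re, Complex.sub_re, Complex.one_re,
      Complex.add_im, Complex.sub_im, Complex.one_im]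
    nlinarith
  unfold hh; linarith

lemma hh_le_re {S : ℂ} (h : 0 ≤ S.re) : hh S ≤ S.re := by
  have h1 : ‖S + 1‖ ^ 2 = (S.re + 1) ^ 2 + S.im ^ 2 := by
    rw [Complex.sq_norm, Complex.normSq_apply]; simp; ring
  have h2 : ‖S - 1‖ ^ 2 = (S.re - 1) ^ 2 + S.im ^ 2 := by
    rw [Complex.sq_norm, Complex.normSq_apply]; simp; ring
  have h3 : 2 ≤ ‖S + 1‖ + ‖S - 1‖ := by
    have := norm_sub_le (S + 1) (S - 1)
    have h4 : (S + 1) - (S - 1) = 2 := by ring
    rw [h4] at this
    simpa using this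
  have h5 : (‖S + 1‖ - ‖S - 1‖) * (‖S + 1‖ + ‖S - 1‖) = 4 * S.re := by nlinarith
  have h6 := hh_nonneg h
  unfold hh at h6 ⊢
  nlinarith

lemma hh_one {x : ℝ} (hx : 1 ≤ x) : hh (x : ℂ) = 1 := by
  unfold hh
  have h1 : ((x : ℂ) + 1) = ((x + 1 : ℝ) : ℂ) := by push_cast; ring
  have h2 : ((x : ℂ) - 1) = ((x - 1 : ℝ) : ℂ) := by push_cast; ring
  rw [h1, h2, Complex.norm_real, Complex.norm_real, Real.norm_eq_abs, Real.norm_eq_abs,
    abs_of_nonneg (by linarith), abs_of_nonneg (by linarith)]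
  ring

lemma hh_zero {S : ℂ} (h : S.re = 0) : hh S = 0 := by
  have : ‖S - 1‖ = ‖S + 1‖ := by
    rw [← abs_of_nonneg (norm_nonneg (S - 1)), ← abs_of_nonneg (norm_nonneg (S + 1)),
      ← sq_eq_sq_iff_abs_eq_abs, Complex.sq_norm, Complex.sq_norm, Complex.normSq_apply,
      Complex.normSq_apply]
    simp only [Complex.add_re, Complex.sub_re, Complex.one_re,
      Complex.add_im, Complex.sub_im, Complex.one_im, h]
    ring
  unfold hh; rw [this]; ring

lemma sl_le_one (b : ℝ) (z : ℂ) : sl b z ≤ 1 := by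
  unfold sl
  have h := Real.arcsin_le_pi_div_two (hh (b * MM z))
  have hp := Real.pi_pos
  calc (2 / Real.pi) * Real.arcsin (hh (b * MM z)) ≤ (2 / Real.pi) * (Real.pi / 2) := by gcongr
    _ = 1 := by field_simp

lemma neg_one_le_sl (b : ℝ) (z : ℂ) : -1 ≤ sl b z := by
  unfold sl
  have h := Real.neg_pi_div_two_le_arcsin (hh (b * MM z))
  have hp := Real.pi_pos
  calc (-1 : ℝ) = (2 / Real.pi) * (-(Real.pi / 2)) := by field_simp
    _ ≤ (2 / Real.pi) * Real.arcsin (hh (b * MM z)) := by gcongr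

lemma re_real_mul (b : ℝ) (w : ℂ) : ((b : ℂ) * w).re = b * w.re := by simp

lemma sl_nonneg {b : ℝ} (hb : 0 ≤ b) {z : ℂ} (hz : ‖z‖ < 1) : 0 ≤ sl b z := by
  unfold sl
  apply mul_nonneg (by positivity)
  apply Real.arcsin_nonneg.mpr
  apply hh_nonneg
  rw [re_real_mul]
  exact mul_nonneg hb (MM_re_pos hz).le

lemma sl_eq_one {b : ℝ} (hb : 0 < b) {t : ℝ} (ht : (1 - b) / (1 + b) ≤ t) (ht1 : t < 1) :
    sl b (t : ℂ) = 1 := by
  unfold sl
  have h1 : (b : ℂ) * MM (t : ℂ) = ((b * ((1 + t) / (1 - t)) : ℝ) : ℂ) := by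
    unfold MM; push_cast; ring
  rw [h1, hh_one, Real.arcsin_one]
  · field_simp
  · rw [div_le_iff₀ (by linarith)] at ht
    rw [← mul_div_assoc, le_div_iff₀ (by linarith)]
    nlinarith

lemma sl_eq_zero {b : ℝ} {z : ℂ} (hz : ‖z‖ = 1) : sl b z = 0 := by
  unfold sl
  rw [hh_zero]
  · simp
  · rw [re_real_mul, MM_re, hz]; simp

lemma sl_continuousAt (b : ℝ) {z : ℂ} (hz : z ≠ 1) : ContinuousAt (sl b) z := by
  unfold sl hh MM
  have h1 : ContinuousAt (fun z : ℂ => (1 + z) / (1 - z)) z := by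
    apply ContinuousAt.div
    · fun_prop
    · fun_prop
    · intro h
      apply hz
      linear_combination -h
  apply ContinuousAt.mul continuousAt_const
  apply Real.continuous_arcsin.continuousAt.comp
  fun_prop

lemma arcsin_le_of_le_half {y : ℝ} (h0 : 0 ≤ y) (h1 : y ≤ 1 / 2) :
    Real.arcsin y ≤ (Real.pi / 3) * y := by
  rw [Real.arcsin_le_iff_le_sin ⟨by linarith, by linarith⟩
    ⟨by nlinarith [Real.pi_pos], by nlinarith [Real.pi_pos]⟩]
  -- concavity of sin on [0, pi]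
  have hc := strictConcaveOn_sin_Icc.concaveOn
  have m0 : (0 : ℝ) ∈ Set.Icc 0 Real.pi := ⟨le_refl _, Real.pi_pos.le⟩
  have m1 : Real.pi / 6 ∈ Set.Icc 0 Real.pi := ⟨by positivity, by linarith [Real.pi_pos]⟩
  have a0 : (0 : ℝ) ≤ 1 - 2 * y := by linarith
  have b0 : (0 : ℝ) ≤ 2 * y := by linarith
  have ab : (1 - 2 * y) + 2 * y = 1 := by ring
  have h2 := hc.2 m0 m1 a0 b0 ab
  simp only [smul_eq_mul, Real.sin_zero, mul_zero, zero_add, Real.sin_pi_div_six] at h2
  have h3 : 2 * y * (Real.pi / 6) = Real.pi / 3 * y := by ring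
  rw [h3] at h2
  linarith

lemma sl_le {b : ℝ} (hb : 0 ≤ b) {z : ℂ} (hz : ‖z‖ < 1) {m : ℝ} (hm : b * (MM z).re ≤ m)
    (hm2 : m ≤ 1 / 2) : sl b z ≤ (2 / 3) * m := by
  unfold sl
  have h0 : 0 ≤ ((b : ℂ) * MM z).re := by
    rw [re_real_mul]; exact mul_nonneg hb (MM_re_pos hz).le
  have h1 : hh (b * MM z) ≤ m := by
    refine (hh_le_re h0).trans ?_
    rwa [re_real_mul]
  have h2 := arcsin_le_of_le_half (hh_nonneg h0) (h1.trans hm2)
  have hp := Real.pi_pos
  calc (2 / Real.pi) * Real.arcsin (hh (b * MM z))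
      ≤ (2 / Real.pi) * ((Real.pi / 3) * hh (b * MM z)) := by gcongr
    _ = (2 / 3) * hh (b * MM z) := by field_simp
    _ ≤ (2 / 3) * m := by gcongr

/-- off the slit the function is harmonic -/
lemma sl_harmonicAt {b : ℝ} (hb : 0 < b) {z : ℂ} (hz : ‖z‖ < 1)
    (hns : ¬ ∃ t : ℝ, (1 - b) / (1 + b) ≤ t ∧ t < 1 ∧ z = (t : ℂ)) :
    HarmonicAt (sl b) z := by
  have hz1 : 1 - z ≠ 0 := one_sub_ne hz
  have hM : AnalyticAt ℂ (fun w : ℂ => (b : ℂ) * MM w) z := by
    apply analyticAt_const.mul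
    unfold MM
    apply AnalyticAt.div
    · exact analyticAt_const.add analyticAt_id
    · exact analyticAt_const.sub analyticAt_id
    · exact hz1
  have hre : 0 < ((b : ℂ) * MM z).re := by
    rw [re_real_mul]; exact mul_pos hb (MM_re_pos hz)
  have hmem : 1 - ((b : ℂ) * MM z) ^ 2 ∈ Complex.slitPlane := by
    apply mem_slit_of_norm hre
    rintro ⟨him, hge⟩
    apply hns
    -- z = (M - 1)/(M+1)
    have hMim : (MM z).im = 0 := by
      have : ((b : ℂ) * MM z).im = b * (MM z).im := by simp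
      rw [this] at him
      rcases mul_eq_zero.mp him with h | h
      · exact absurd h hb.ne'
      · exact h
    set m := (MM z).re with hm
    have hMre : MM z = (m : ℂ) := by
      apply Complex.ext
      · simp [hm]
      · simp [hMim]
    have hmpos : 0 < m := MM_re_pos hz
    have hzz : z = (((m - 1) / (m + 1) : ℝ) : ℂ) := by
      have h1 : (1 + z) = m * (1 - z) := by
        rw [← hMre, MM]; field_simp
      have h2 : z * ((m : ℂ) + 1) = m - 1 := by linear_combination h1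
      have h3 : ((m : ℂ) + 1) ≠ 0 := by
        have : ((m : ℂ) + 1) = ((m + 1 : ℝ) : ℂ) := by push_cast; ring
        rw [this]
        exact_mod_cast (by linarith : m + 1 ≠ 0)
      push_cast
      rw [eq_div_iff h3]
      exact h2
    rw [re_real_mul] at hge
    refine ⟨(m - 1) / (m + 1), ?_, ?_, hzz⟩
    · rw [div_le_div_iff₀ (by linarith) (by linarith)]
      nlinarith
    · rw [div_lt_one (by linarith)]; linarith
  have := (harmonic_arcsin_hh hM hmem).const_smul (c := 2 / Real.pi)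
  exact this

/-- Modulus of the Blaschke factor with zero at the real point `a`. -/
noncomputable def bl (a : ℝ) (z : ℂ) : ℝ := ‖(z - a) / (1 - a * z)‖

/-- Truncated (normalised) Green function of the disc with pole `a`. -/
noncomputable def po (a N : ℝ) (z : ℂ) : ℝ :=
  - Real.log (max (bl a z) (1 / N)) / Real.log N

section pole

variable {a N : ℝ} (ha0 : 0 < a) (ha1 : a < 1) (hN : 1 < N)

include ha0 ha1 in
lemma den_ne {z : ℂ} (hz : ‖z‖ < 1) : 1 - (a : ℂ) * z ≠ 0 := by
  intro h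
  have h1 : (a : ℂ) * z = 1 := by linear_combination -h
  have h2 := congrArg norm h1
  rw [norm_mul, Complex.norm_real, Real.norm_eq_abs, abs_of_pos ha0, norm_one] at h2
  nlinarith [norm_nonneg z]

include ha0 ha1 in
lemma bl_le_one {z : ℂ} (hz : ‖z‖ < 1) : bl a z ≤ 1 := by
  unfold bl
  rw [norm_div, div_le_one (norm_pos_iff.mpr (den_ne ha0 ha1 hz))]
  rw [← abs_of_nonneg (norm_nonneg (z - a)), ← abs_of_nonneg (norm_nonneg (1 - (a : ℂ) * z)),
      ← sq_le_sq]
  have hz2 : z.re ^ 2 + z.im ^ 2 < 1 := by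
    have h1 : ‖z‖ ^ 2 = z.re ^ 2 + z.im ^ 2 := by
      rw [Complex.sq_norm, Complex.normSq_apply]; ring
    nlinarith [norm_nonneg z]
  rw [Complex.sq_norm, Complex.sq_norm, Complex.normSq_apply, Complex.normSq_apply]
  simp only [Complex.sub_re, Complex.one_re, Complex.sub_im, Complex.one_im, Complex.ofReal_re,
    Complex.ofReal_im, Complex.mul_re, Complex.mul_im]
  have : 0 ≤ (1 - a ^ 2) * (1 - (z.re ^ 2 + z.im ^ 2)) := by
    apply mul_nonneg <;> nlinarith
  nlinarith

include hN in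
lemma po_le_one (z : ℂ) : po a N z ≤ 1 := by
  unfold po
  have hl : 0 < Real.log N := Real.log_pos hN
  rw [div_le_one hl]
  have h1 : Real.log (1 / N) ≤ Real.log (max (bl a z) (1 / N)) :=
    Real.log_le_log (by positivity) (le_max_right _ _)
  rw [Real.log_div (by norm_num) (by positivity), Real.log_one] at h1
  linarith

include ha0 ha1 hN in
lemma po_nonneg {z : ℂ} (hz : ‖z‖ < 1) : 0 ≤ po a N z := by
  unfold po
  have hl : 0 < Real.log N := Real.log_pos hN
  apply div_nonneg _ hl.le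
  have h1 : max (bl a z) (1 / N) ≤ 1 := by
    apply max_le (bl_le_one ha0 ha1 hz)
    rw [div_le_one (by positivity)]; exact hN.le
  have h2 : 0 < max (bl a z) (1 / N) := lt_of_lt_of_le (by positivity) (le_max_right _ _)
  have := Real.log_nonpos h2.le h1
  linarith

include hN in
lemma po_eq_one {z : ℂ} (h : bl a z ≤ 1 / N) : po a N z = 1 := by
  unfold po
  have hl : 0 < Real.log N := Real.log_pos hN
  rw [max_eq_right h, Real.log_div (by norm_num) (by positivity), Real.log_one]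
  field_simp
  ring

include hN in
/-- upper bound -/
lemma po_le {z : ℂ} {m : ℝ} (hb : 0 < bl a z) (h : - Real.log (bl a z) ≤ m * Real.log N) :
    po a N z ≤ m := by
  unfold po
  have hl : 0 < Real.log N := Real.log_pos hN
  rw [div_le_iff₀ hl]
  have h1 : Real.log (bl a z) ≤ Real.log (max (bl a z) (1 / N)) :=
    Real.log_le_log hb (le_max_left _ _)
  linarith

include ha0 ha1 hN in
lemma po_continuousAt {z : ℂ} (hz : ‖z‖ < 1) : ContinuousAt (po a N) z := by
  unfold po
  apply ContinuousAt.div_const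
  apply ContinuousAt.neg
  apply ContinuousAt.log
  · refine Filter.Tendsto.max ?_ tendsto_const_nhds
    unfold bl
    show ContinuousAt _ _
    apply ContinuousAt.norm
    apply ContinuousAt.div
    · fun_prop
    · fun_prop
    · exact den_ne ha0 ha1 hz
  · exact (lt_of_lt_of_le (by positivity) (le_max_right _ _)).ne'

include ha0 ha1 hN in
lemma po_harmonicAt {z : ℂ} (hz : ‖z‖ < 1) (h : 1 / N < bl a z) : HarmonicAt (po a N) z := by
  have hd := den_ne ha0 ha1 hz
  have han : AnalyticAt ℂ (fun w : ℂ => (w - a) / (1 - a * w)) z := by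
    apply AnalyticAt.div
    · exact analyticAt_id.sub analyticAt_const
    · exact analyticAt_const.sub (analyticAt_const.mul analyticAt_id)
    · exact hd
  have hne : (z - a) / (1 - a * z) ≠ 0 := by
    have : 0 < bl a z := lt_trans (by positivity) h
    exact norm_pos_iff.mp this
  have h1 := (AnalyticAt.harmonicAt_log_norm han hne).const_smul (c := - 1 / Real.log N)
  have hcont : ContinuousAt (bl a) z := by
    unfold bl
    exact han.continuousAt.norm
  have hev : ∀ᶠ w in 𝓝 z, 1 / N < bl a w := hcont.eventually (lt_mem_nhds h)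
  have heq : (po a N) =ᶠ[𝓝 z]
      ((- 1 / Real.log N) • (fun w : ℂ => Real.log ‖(w - a) / (1 - a * w)‖)) := by
    filter_upwards [hev] with w hw
    unfold po
    rw [max_eq_left hw.le]
    simp only [Pi.smul_apply, smul_eq_mul]
    unfold bl
    ring
  rw [harmonicAt_congr_nhds heq]
  exact h1

end pole

lemma super_mean {v : ℂ → ℝ} (hc : ContinuousOn v (Metric.ball 0 1)) {z : ℂ}
    (hz : z ∈ Metric.ball (0 : ℂ) 1)
    (h : (∀ w ∈ Metric.ball (0 : ℂ) 1, v w ≤ v z) ∨ HarmonicAt v z) :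
    ∃ ε : ℝ, 0 < ε ∧ ∀ ρ : ℝ, 0 < ρ → ρ < ε → Metric.closedBall z ρ ⊆ Metric.ball 0 1 ∧
      Real.circleAverage v z ρ ≤ v z := by
  obtain ⟨ε₁, hε₁, hb⟩ := Metric.isOpen_iff.mp Metric.isOpen_ball z hz
  have hsub : ∀ ρ : ℝ, ρ < ε₁ → Metric.closedBall z ρ ⊆ Metric.ball (0 : ℂ) 1 :=
    fun ρ h2 => (Metric.closedBall_subset_ball h2).trans hb
  rcases h with h | h
  · refine ⟨ε₁, hε₁, fun ρ h1 h2 => ⟨hsub ρ h2, ?_⟩⟩
    have hint : CircleIntegrable v z ρ := by
      apply ContinuousOn.circleIntegrable h1.le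
      exact hc.mono (Metric.sphere_subset_closedBall.trans (hsub ρ h2))
    apply Real.circleAverage_mono_on_of_le_circle hint
    intro x hx
    rw [abs_of_pos h1] at hx
    exact h x (hsub ρ h2 (Metric.sphere_subset_closedBall hx))
  · obtain ⟨ε₂, hε₂, hb2⟩ := Metric.mem_nhds_iff.mp
      (isOpen_setOfPred_harmonicAt v |>.mem_nhds h)
    refine ⟨min ε₁ ε₂, lt_min hε₁ hε₂, fun ρ h1 h2 =>
      ⟨hsub ρ (h2.trans_le (min_le_left _ _)), ?_⟩⟩
    apply le_of_eq
    apply InnerProductSpace.HarmonicOnNhd.circleAverage_eq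
    intro w hw
    rw [abs_of_pos h1] at hw
    exact hb2 (Metric.closedBall_subset_ball (h2.trans_le (min_le_right _ _)) hw)

lemma lint_le {v : ℂ → ℝ} (hc : ContinuousOn v (Metric.ball 0 1))
    (hnn : ∀ w ∈ Metric.ball (0 : ℂ) 1, 0 ≤ v w) {z : ℂ} {ρ : ℝ} (hρ : 0 < ρ)
    (hsub : Metric.closedBall z ρ ⊆ Metric.ball 0 1) (hz : z ∈ Metric.ball (0 : ℂ) 1)
    (hav : Real.circleAverage v z ρ ≤ v z) :
    (((-(v z) : ℝ)) : EReal) ≤ -((((ENNReal.ofReal (2 * Real.pi))⁻¹ *
            ∫⁻ θ in Set.Ioc 0 (2 * Real.pi),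
              (-(((-(v (z + (ρ : ℂ) * Complex.exp ((θ : ℂ) * Complex.I))) : ℝ)) : EReal)).toENNReal) : ENNReal) : EReal) := by
  have h2pi : 0 < 2 * Real.pi := by positivity
  have h1 : ∀ θ : ℝ, (-(((-(v (z + (ρ : ℂ) * Complex.exp ((θ : ℂ) * Complex.I))) : ℝ)) : EReal)).toENNReal
      = ENNReal.ofReal (v (circleMap z ρ θ)) := by
    intro θ
    rw [← EReal.coe_neg, neg_neg, EReal.real_coe_toENNReal]
    rfl
  simp only [h1]
  have hcm : Continuous (fun θ : ℝ => v (circleMap z ρ θ)) := by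
    apply (hc.mono (Metric.sphere_subset_closedBall.trans hsub)).comp_continuous
      (continuous_circleMap z ρ)
    intro θ
    exact circleMap_mem_sphere z hρ.le θ
  have hint : IntegrableOn (fun θ : ℝ => v (circleMap z ρ θ)) (Set.Ioc 0 (2 * Real.pi)) :=
    (hcm.integrableOn_Icc).mono_set Set.Ioc_subset_Icc_self
  rw [← ofReal_integral_eq_lintegral_ofReal hint]
  · rw [← ENNReal.ofReal_inv_of_pos h2pi, ← ENNReal.ofReal_mul (by positivity)]
    have h3 : (2 * Real.pi)⁻¹ * ∫ θ in Set.Ioc 0 (2 * Real.pi), v (circleMap z ρ θ)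
        = Real.circleAverage v z ρ := by
      rw [Real.circleAverage_def, intervalIntegral.integral_of_le h2pi.le, smul_eq_mul]
    rw [h3, EReal.coe_ennreal_ofReal]
    rw [EReal.coe_neg, EReal.neg_le_neg_iff]
    rw [EReal.coe_le_coe_iff]
    exact max_le hav (hnn z hz)
  · exact Filter.Eventually.of_forall fun θ =>
      hnn _ (hsub (Metric.sphere_subset_closedBall (circleMap_mem_sphere z hρ.le θ)))


lemma log33 : (3 : ℝ) ≤ Real.log 33 := by
  rw [Real.le_log_iff_exp_le (by norm_num)]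
  have h := Real.exp_one_lt_d9
  have h0 := Real.exp_pos 1
  have : Real.exp 3 = (Real.exp 1) ^ 3 := by
    rw [← Real.exp_nat_mul]; norm_num
  rw [this]
  have h2 : Real.exp 1 ≤ 3 := by linarith
  calc Real.exp 1 ^ 3 ≤ 3 ^ 3 := by gcongr
    _ ≤ 33 := by norm_num

lemma circ_norm (θ : ℝ) : ‖(((4 / 5 : ℝ)) : ℂ) * Complex.exp ((θ : ℂ) * Complex.I)‖ = 4 / 5 := by
  rw [norm_mul, Complex.norm_exp_ofReal_mul_I, Complex.norm_real, Real.norm_eq_abs,
    abs_of_pos (by norm_num)]
  norm_num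

/-- The key estimate on the circle of radius `4/5`. -/
lemma key_est {z : ℂ} (hz : ‖z‖ = 4 / 5) : sl (16 / 323) (-z) + po (9 / 10) 33 z ≤ 8 / 25 := by
  have hz1 : ‖z‖ < 1 := by rw [hz]; norm_num
  have hzm : ‖-z‖ < 1 := by rw [norm_neg]; exact hz1
  have hsq : z.re ^ 2 + z.im ^ 2 = 16 / 25 := by
    have h1 : ‖z‖ ^ 2 = z.re ^ 2 + z.im ^ 2 := by
      rw [Complex.sq_norm, Complex.normSq_apply]; ring
    rw [← h1, hz]; norm_num
  have hx1 : z.re ≤ 4 / 5 := by nlinarith [sq_nonneg z.im]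
  have hx2 : -(4 / 5) ≤ z.re := by nlinarith [sq_nonneg z.im]
  have hn1 : ‖1 - -z‖ ^ 2 = 41 / 25 + 2 * z.re := by
    rw [Complex.sq_norm, Complex.normSq_apply]; simp; nlinarith
  have hMM : (MM (-z)).re = (9 / 25) / (41 / 25 + 2 * z.re) := by
    rw [MM_re, hn1, norm_neg, hz]; norm_num
  have hpos : 0 < 41 / 25 + 2 * z.re := by linarith
  -- Blaschke factor
  have hza : ‖z - ((9 / 10 : ℝ) : ℂ)‖ ^ 2 = 29 / 20 - 9 / 5 * z.re := by
    rw [Complex.sq_norm, Complex.normSq_apply]
    simp only [Complex.sub_re, Complex.sub_im, Complex.ofReal_re, Complex.ofReal_im]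
    nlinarith
  have hoz : ‖1 - ((9 / 10 : ℝ) : ℂ) * z‖ ^ 2 = 949 / 625 - 9 / 5 * z.re := by
    rw [Complex.sq_norm, Complex.normSq_apply]
    simp only [Complex.sub_re, Complex.sub_im, Complex.ofReal_re, Complex.ofReal_im,
      Complex.mul_re, Complex.mul_im, Complex.one_re, Complex.one_im]
    nlinarith
  have hozpos : 0 < ‖1 - ((9 / 10 : ℝ) : ℂ) * z‖ :=
    norm_pos_iff.mpr (den_ne (by norm_num) (by norm_num) hz1)
  have hblsq : ∀ m : ℝ, 0 ≤ m → m ^ 2 * (949 / 625 - 9 / 5 * z.re) ≤ 29 / 20 - 9 / 5 * z.re →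
      m ≤ bl (9 / 10) z := by
    intro m hm h
    unfold bl
    rw [norm_div, le_div_iff₀ hozpos]
    rw [← hza, ← hoz, ← mul_pow] at h
    exact (sq_le_sq₀ (by positivity) (norm_nonneg _)).mp h
  have hl33 := log33
  have hN : (1 : ℝ) < 33 := by norm_num
  rcases le_total 0 z.re with hx | hx
  · have h1 : sl (16 / 323) (-z) ≤ (2 / 3) * (1 / 90) := by
      apply sl_le (by norm_num) hzm _ (by norm_num)
      rw [hMM, ← mul_div_assoc, div_le_iff₀ hpos]
      linarith
    have h2 : (5 / 14 : ℝ) ≤ bl (9 / 10) z := by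
      apply hblsq _ (by norm_num)
      nlinarith
    have h3 : po (9 / 10) 33 z ≤ 3 / 10 := by
      apply po_le hN (lt_of_lt_of_le (by norm_num) h2)
      have h4 : Real.log (5 / 14) ≤ Real.log (bl (9 / 10) z) :=
        Real.log_le_log (by norm_num) h2
      have h5 : - Real.log (5 / 14) = Real.log (14 / 5) := by
        rw [← Real.log_inv]; norm_num
      have h6 : 10 * Real.log (14 / 5) ≤ 3 * Real.log 33 := by
        have e1 : 10 * Real.log (14 / 5) = Real.log ((14 / 5) ^ 10) := by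
          rw [Real.log_pow]; norm_num
        have e2 : 3 * Real.log 33 = Real.log (33 ^ 3) := by
          rw [Real.log_pow]; norm_num
        rw [e1, e2]
        apply Real.log_le_log (by norm_num)
        norm_num
      linarith
    linarith
  · have h1 : sl (16 / 323) (-z) ≤ (2 / 3) * (144 / 323) := by
      apply sl_le (by norm_num) hzm _ (by norm_num)
      rw [hMM, ← mul_div_assoc, div_le_iff₀ hpos]
      linarith
    have h2 : (977 / 1000 : ℝ) ≤ bl (9 / 10) z := by
      apply hblsq _ (by norm_num)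
      nlinarith
    have h3 : po (9 / 10) 33 z ≤ 1 / 100 := by
      apply po_le hN (lt_of_lt_of_le (by norm_num) h2)
      have h4 : Real.log (977 / 1000) ≤ Real.log (bl (9 / 10) z) :=
        Real.log_le_log (by norm_num) h2
      have h5 : - Real.log (977 / 1000) = Real.log (1000 / 977) := by
        rw [← Real.log_inv]; norm_num
      have h6 : Real.log (1000 / 977) ≤ 1000 / 977 - 1 :=
        Real.log_le_sub_one_of_pos (by norm_num)
      have h7 : (1000 : ℝ) / 977 - 1 ≤ 3 / 100 := by norm_num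
      linarith
    linarith


lemma harmonicAt_comp_neg {f : ℂ → ℝ} {z : ℂ} (h : HarmonicAt f (-z)) :
    HarmonicAt (fun w => f (-w)) z := by
  obtain ⟨ε, hε, hb⟩ := Metric.isOpen_iff.mp (isOpen_setOfPred_harmonicAt f) (-z) h
  obtain ⟨G, hG, hGe⟩ := InnerProductSpace.HarmonicOnNhd.exists_analyticOnNhd_ball_re_eq
    (f := f) (z := -z) (R := ε) (fun y hy => hb hy)
  have h1 : AnalyticAt ℂ (fun w => G (-w)) z := by
    have h2 : AnalyticAt ℂ G (-z) := hG (-z) (Metric.mem_ball_self hε)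
    exact AnalyticAt.fun_comp h2 analyticAt_id.neg
  have heq : (fun w => f (-w)) =ᶠ[𝓝 z] (fun w => (G (-w)).re) := by
    have h3 : Metric.ball z ε ∈ 𝓝 z := Metric.ball_mem_nhds z hε
    filter_upwards [h3] with w hw
    have h4 : -w ∈ Metric.ball (-z) ε := by
      rw [Metric.mem_ball, dist_neg_neg]; exact hw
    exact (hGe h4).symm
  rw [harmonicAt_congr_nhds heq]
  exact AnalyticAt.harmonicAt_re h1

end helpers

end Pool.Agent.H44.CM
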