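import Pool.Agent.H44.CM.Base

/-! Uniqueness of the bounded harmonic function of a radial slit `[c, 1)` in the unit disc. -/

set_option autoImplicit false

namespace Pool.Agent.H44.CM

open Set Filter Topology Metric InnerProductSpace

/-- the radial slit `[c, 1)` as a subset of the plane -/
def slit (c : ℝ) : Set ℂ := {z | ∃ t : ℝ, c ≤ t ∧ t < 1 ∧ z = (t : ℂ)}

lemma isOpen_compl_slit (c : ℝ) : IsOpen (ball (0 : ℂ) 1 \ slit c) := by
  have h : ball (0 : ℂ) 1 \ slit c = ball (0 : ℂ) 1 \ ((fun x : ℝ => (x : ℂ)) '' Icc c 1) := by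
    ext z
    constructor
    · rintro ⟨h1, h2⟩
      refine ⟨h1, ?_⟩
      rintro ⟨t, ht, rfl⟩
      apply h2
      refine ⟨t, ht.1, ?_, rfl⟩
      simp only [mem_ball_zero_iff, Complex.norm_real, Real.norm_eq_abs] at h1
      exact (abs_lt.mp h1).2
    · rintro ⟨h1, h2⟩
      refine ⟨h1, ?_⟩
      rintro ⟨t, ht1, ht2, rfl⟩
      exact h2 ⟨t, ⟨ht1, ht2.le⟩, rfl⟩
  rw [h]
  exact isOpen_ball.sdiff (isCompact_Icc.image Complex.continuous_ofReal).isClosed

/-- A bounded function which is harmonic in the disc outside the slit and tends to `0` at the slit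
and at the points of the unit circle other than `1` is nonpositive. -/
theorem nonpos_of_boundary {c : ℝ} {w : ℂ → ℝ}
    (hw : HarmonicOnNhd w (ball (0 : ℂ) 1 \ slit c)) {M : ℝ} (hM : ∀ z ∈ ball (0 : ℂ) 1, w z ≤ M)
    (hb1 : ∀ z ∈ slit c, Tendsto w (𝓝[ball (0 : ℂ) 1 \ slit c] z) (𝓝 0))
    (hb2 : ∀ z : ℂ, ‖z‖ = 1 → z ≠ 1 → Tendsto w (𝓝[ball (0 : ℂ) 1 \ slit c] z) (𝓝 0)) :
    ∀ z ∈ ball (0 : ℂ) 1 \ slit c, w z ≤ 0 := by
  classical
  intro z₀ hz₀
  set Ω : Set ℂ := ball (0 : ℂ) 1 \ slit c with hΩ
  have hΩo : IsOpen Ω := isOpen_compl_slit c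
  -- the barrier
  set L : ℂ → ℝ := fun z => Real.log 2 - Real.log ‖1 - z‖ with hL
  have hLnn : ∀ z ∈ ball (0 : ℂ) 1, 0 ≤ L z := by
    intro z hz
    have h1 : ‖1 - z‖ ≤ 2 := by
      have := norm_sub_le (1 : ℂ) z
      rw [norm_one] at this
      have hz' := mem_ball_zero_iff.1 hz
      linarith
    have h0 : 0 < ‖1 - z‖ := norm_pos_iff.2 (one_sub_ne (mem_ball_zero_iff.1 hz))
    have := Real.log_le_log h0 h1
    simp only [hL]
    linarith
  have hLh : ∀ z ∈ ball (0 : ℂ) 1, HarmonicAt L z := by
    intro z hz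
    have h1 : AnalyticAt ℂ (fun z : ℂ => 1 - z) z := analyticAt_const.sub analyticAt_id
    have h2 := h1.harmonicAt_log_norm (one_sub_ne (mem_ball_zero_iff.1 hz))
    exact (harmonicAt_const (Real.log 2)).sub h2
  by_contra hcon
  push Not at hcon
  -- choose `ε`
  obtain ⟨ε, hε, hgε⟩ : ∃ ε : ℝ, 0 < ε ∧ 0 < w z₀ - ε * L z₀ := by
    have hL0 := hLnn z₀ hz₀.1
    refine ⟨w z₀ / (2 * (L z₀ + 1)), by positivity, ?_⟩
    rw [sub_pos, div_mul_eq_mul_div, div_lt_iff₀ (by positivity)]
    nlinarith
  set g : ℂ → ℝ := fun z => w z - ε * L z with hg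
  have hgh : ∀ z ∈ Ω, HarmonicAt g z := by
    intro z hz
    have h1 := (hLh z hz.1).const_smul (c := ε)
    exact (hw z hz).sub h1
  have hgc : ∀ z ∈ Ω, ContinuousAt g z := fun z hz => (hgh z hz).1.continuousAt
  set φ : ℂ → ℝ := fun z => if z ∈ Ω then max (g z) 0 else 0 with hφ
  have hφ0 : ∀ z, 0 ≤ φ z := by
    intro z
    simp only [hφ]
    split_ifs
    · exact le_max_right _ _
    · exact le_rfl
  have hφw : ∀ z, z ∈ Ω → φ z ≤ max (w z) 0 := by
    intro z hz
    simp only [hφ, if_pos hz]
    apply max_le_max_right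
    simp only [hg]
    have := mul_nonneg hε.le (hLnn z hz.1)
    linarith
  have hφn : ∀ z, z ∉ Ω → φ z = 0 := fun z hz => by simp only [hφ, if_neg hz]
  -- continuity at boundary points where `w → 0`
  have hbd : ∀ z, z ∉ Ω → Tendsto w (𝓝[Ω] z) (𝓝 0) → ContinuousAt φ z := by
    intro z hz ht
    rw [ContinuousAt, hφn z hz]
    have h1 : Tendsto φ (𝓝[Ω] z) (𝓝 0) := by
      have h2 : Tendsto (fun z => max (w z) 0) (𝓝[Ω] z) (𝓝 0) := by
        have := ht.max (tendsto_const_nhds (x := (0 : ℝ)))
        rwa [max_self] at this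
      refine squeeze_zero' (Eventually.of_forall hφ0) ?_ h2
      exact eventually_nhdsWithin_of_forall hφw
    have h3 : Tendsto φ (𝓝[Ωᶜ] z) (𝓝 0) := by
      refine tendsto_const_nhds.congr' ?_
      exact eventually_nhdsWithin_of_forall fun x hx => (hφn x hx).symm
    have h4 := h1.sup h3
    rwa [← nhdsWithin_union, union_compl_self, nhdsWithin_univ] at h4
  have hcont : Continuous φ := by
    rw [continuous_iff_continuousAt]
    intro z
    by_cases hz : z ∈ Ω
    · have h1 : φ =ᶠ[𝓝 z] fun z => max (g z) 0 := by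
        filter_upwards [hΩo.mem_nhds hz] with x hx
        simp only [hφ, if_pos hx]
      have h2 : ContinuousAt (fun z => max (g z) 0) z := (hgc z hz).max continuousAt_const
      exact h2.congr h1.symm
    · rcases lt_trichotomy ‖z‖ 1 with h | h | h
      · -- the slit
        have h1 : z ∈ slit c := by
          by_contra h2
          exact hz ⟨mem_ball_zero_iff.2 h, h2⟩
        exact hbd z hz (hb1 z h1)
      · by_cases h1 : z = 1
        · -- the point `1`
          subst h1
          have h2 : φ =ᶠ[𝓝 1] fun _ => 0 := by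
            have h3 : ball (1 : ℂ) (2 * Real.exp (-(|M| / ε))) ∈ 𝓝 (1 : ℂ) :=
              ball_mem_nhds _ (by positivity)
            filter_upwards [h3] with x hx
            by_cases hxΩ : x ∈ Ω
            · simp only [hφ, if_pos hxΩ]
              apply max_eq_right
              have h4 : 0 < ‖1 - x‖ := norm_pos_iff.2 (one_sub_ne (mem_ball_zero_iff.1 hxΩ.1))
              have h5 : Real.log ‖1 - x‖ ≤ Real.log 2 - |M| / ε := by
                have h6 : ‖1 - x‖ ≤ 2 * Real.exp (-(|M| / ε)) := by
                  rw [mem_ball, dist_comm, dist_eq_norm] at hx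
                  exact hx.le
                have h7 := Real.log_le_log h4 h6
                rw [Real.log_mul (by norm_num) (Real.exp_ne_zero _), Real.log_exp] at h7
                linarith
              have h8 : |M| / ε ≤ L x := by simp only [hL]; linarith
              have h9 : |M| ≤ ε * L x := by
                rw [div_le_iff₀ hε] at h8
                linarith
              have h10 := hM x hxΩ.1
              have h11 := le_abs_self M
              simp only [hg]
              linarith
            · exact hφn x hxΩ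
          exact continuousAt_const.congr h2.symm
        · exact hbd z hz (hb2 z h h1)
      · -- outside of the closed disc
        have h2 : φ =ᶠ[𝓝 z] fun _ => 0 := by
          have h3 : {x : ℂ | 1 < ‖x‖} ∈ 𝓝 z := (isOpen_lt continuous_const continuous_norm).mem_nhds h
          filter_upwards [h3] with x hx
          apply hφn
          intro h4
          have h5 := mem_ball_zero_iff.1 h4.1
          exact absurd hx (not_lt.2 h5.le)
        exact continuousAt_const.congr h2.symm
  -- the maximum is attained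
  have hφz₀ : 0 < φ z₀ := by
    simp only [hφ, if_pos hz₀]
    exact lt_max_of_lt_left hgε
  obtain ⟨z₁, -, hmax⟩ := (isCompact_closedBall (0 : ℂ) 1).exists_isMaxOn
    ⟨z₀, ball_subset_closedBall hz₀.1⟩ hcont.continuousOn
  have hle : ∀ z, φ z ≤ φ z₁ := by
    intro z
    by_cases hz : z ∈ Ω
    · exact hmax (ball_subset_closedBall hz.1)
    · rw [hφn z hz]; exact hφ0 _
  have hpos : 0 < φ z₁ := hφz₀.trans_le (hle z₀)
  have hclopen : IsClopen {z | φ z = φ z₁} := by
    refine ⟨isClosed_eq hcont continuous_const, ?_⟩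
    rw [isOpen_iff_mem_nhds]
    intro z hz
    have hz1 : φ z = φ z₁ := hz
    have hzΩ : z ∈ Ω := by
      by_contra h
      rw [hφn z h] at hz1
      exact hpos.ne hz1
    obtain ⟨δ, hδ, hball⟩ := Metric.isOpen_iff.mp hΩo z hzΩ
    obtain ⟨G, hG, hGe⟩ := HarmonicOnNhd.exists_analyticOnNhd_ball_re_eq
      (f := g) (z := z) (R := δ) (fun y hy => hgh y (hball hy))
    have hGe' : ∀ x ∈ ball z δ, (G x).re = g x := fun x hx => hGe hx
    have hgmax : ∀ x ∈ ball z δ, g x ≤ g z := by
      intro x hx
      have hxΩ := hball hx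
      have h1 := hle x
      have h2 : g z = φ z₁ := by
        have h3 := hz1
        simp only [hφ, if_pos hzΩ] at h3
        rcases le_total (g z) 0 with h4 | h4
        · rw [max_eq_right h4] at h3
          exact absurd h3 hpos.ne
        · rwa [max_eq_left h4] at h3
      have h5 : g x ≤ φ x := by
        simp only [hφ, if_pos hxΩ]
        exact le_max_left _ _
      rw [h2]
      exact h5.trans h1
    have hd : ∀ᶠ x in 𝓝 z, DifferentiableAt ℂ (fun x => Complex.exp (G x)) x := by
      filter_upwards [ball_mem_nhds z hδ] with x hx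
      exact (hG x hx).differentiableAt.cexp
    have hlm : IsLocalMax (norm ∘ fun x => Complex.exp (G x)) z := by
      filter_upwards [ball_mem_nhds z hδ] with x hx
      simp only [Function.comp, Complex.norm_exp]
      apply Real.exp_le_exp.2
      rw [hGe' x hx, hGe' z (mem_ball_self hδ)]
      exact hgmax x hx
    have hev := Complex.eventually_eq_of_isLocalMax_norm hd hlm
    filter_upwards [hev, ball_mem_nhds z hδ] with x hx hxb
    show φ x = φ z₁
    rw [← hz1]
    have h1 : Real.exp (G x).re = Real.exp (G z).re := by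
      rw [← Complex.norm_exp, ← Complex.norm_exp, hx]
    have h2 : g x = g z := by
      have := Real.exp_injective h1
      rwa [hGe' x hxb, hGe' z (mem_ball_self hδ)] at this
    simp only [hφ, if_pos hzΩ, if_pos (hball hxb), h2]
  have huniv := hclopen.eq_univ ⟨z₁, rfl⟩
  have h2 : φ 2 = φ z₁ := by
    have : (2 : ℂ) ∈ {z | φ z = φ z₁} := by rw [huniv]; trivial
    exact this
  have h3 : φ 2 = 0 := by
    apply hφn
    intro h
    have := mem_ball_zero_iff.1 h.1
    norm_num at this
  rw [h3] at h2
  exact hpos.ne h2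

end Pool.Agent.H44.CM
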